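import Pool.Agent.H82.Col.Defs

/-!
# The three-leg model (helper17) : the algebra part

`V = Fin 3 → ℕ → ℝ` (three legs); three letters `op 0`, `op 1`, `op 2` act with
`op l ∘ op l = 0`, `E = op 0 + op 1 + op 2`, `E (E v) = Fh v • T`, `E T = 3 T`, `Fh (E v) = 3 Fh v`.
-/

set_option autoImplicit false

namespace H82Col

open Finset

noncomputable section

/-- vectors on three legs -/
abbrev Vec := Fin 3 → ℕ → ℝ

/-- own leg: pairs (2j-1,2j), j ≥ 1, `(s,t) ↦ (s-t)/2 (1,1)`; index 0 ↦ 0 -/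
def dA (f : ℕ → ℝ) (k : ℕ) : ℝ :=
  if k = 0 then 0 else if k % 2 = 1 then (f k - f (k + 1)) / 2 else (f (k - 1) - f k) / 2

/-- pairs (2j,2j+1), `(s,t) ↦ (s+t)/2 (1,-1)` -/
def dB (f : ℕ → ℝ) (k : ℕ) : ℝ :=
  if k % 2 = 0 then (f k + f (k + 1)) / 2 else -(f (k - 1) + f k) / 2

/-- pairs (2j,2j+1), `(s,t) ↦ (s-t)/2 (1,1)` -/
def dC (f : ℕ → ℝ) (k : ℕ) : ℝ :=
  if k % 2 = 0 then (f k - f (k + 1)) / 2 else (f (k - 1) - f k) / 2

def sA (k : ℕ) : ℝ := if k = 3 then -1/2 else if k = 4 then -1/2 else 0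
def sC (k : ℕ) : ℝ := if k = 0 then 1 else if k = 1 then 1 else if k = 2 then -1 else
  if k = 3 then -1 else 0
def sB (k : ℕ) : ℝ := if k = 0 then 1 else if k = 1 then -1 else if k = 2 then 1 else
  if k = 3 then -1 else 0

/-- action of the letter `l` -/
def op (l : Fin 3) (v : Vec) : Vec := fun L k =>
  if L = l then dA (v L) k + v l 0 * sA k
  else if L = l + 1 then dC (v L) k + v l 0 * sC k
  else dB (v L) k + v l 0 * sB k

/-- the vacuum vector -/
def T : Vec := fun _ k => if k = 0 then 3 else if k = 3 then -2 else if k = 4 then -1 else 0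

/-- the functional -/
def Fh (v : Vec) : ℝ := v 0 0 + v 1 0 + v 2 0

/-- sum of the three letters -/
def E (v : Vec) : Vec := fun L k => op 0 v L k + op 1 v L k + op 2 v L k

theorem dA_zero (f : ℕ → ℝ) : dA f 0 = 0 := by simp [dA]
theorem dA_odd (f : ℕ → ℝ) (j : ℕ) : dA f (2 * j + 1) = (f (2 * j + 1) - f (2 * j + 2)) / 2 := by
  have : (2 * j + 1) % 2 = 1 := by omega
  simp [dA, this]
theorem dA_even (f : ℕ → ℝ) (j : ℕ) : dA f (2 * j + 2) = (f (2 * j + 1) - f (2 * j + 2)) / 2 := by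
  have : (2 * j + 2) % 2 = 0 := by omega
  simp [dA]
theorem dB_even (f : ℕ → ℝ) (j : ℕ) : dB f (2 * j) = (f (2 * j) + f (2 * j + 1)) / 2 := by
  simp [dB]
theorem dB_odd (f : ℕ → ℝ) (j : ℕ) : dB f (2 * j + 1) = -(f (2 * j) + f (2 * j + 1)) / 2 := by
  have : (2 * j + 1) % 2 = 1 := by omega
  simp [dB, this]
theorem dC_even (f : ℕ → ℝ) (j : ℕ) : dC f (2 * j) = (f (2 * j) - f (2 * j + 1)) / 2 := by
  simp [dC]
theorem dC_odd (f : ℕ → ℝ) (j : ℕ) : dC f (2 * j + 1) = (f (2 * j) - f (2 * j + 1)) / 2 := by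
  have : (2 * j + 1) % 2 = 1 := by omega
  simp [dC, this]

theorem sA_big (k : ℕ) (h : 5 ≤ k) : sA k = 0 := by
  unfold sA; rw [if_neg (by omega), if_neg (by omega)]
theorem sC_big (k : ℕ) (h : 5 ≤ k) : sC k = 0 := by
  unfold sC; rw [if_neg (by omega), if_neg (by omega), if_neg (by omega), if_neg (by omega)]
theorem sB_big (k : ℕ) (h : 5 ≤ k) : sB k = 0 := by
  unfold sB; rw [if_neg (by omega), if_neg (by omega), if_neg (by omega), if_neg (by omega)]
theorem T_big (L : Fin 3) (k : ℕ) (h : 5 ≤ k) : T L k = 0 := by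
  unfold T; rw [if_neg (by omega), if_neg (by omega), if_neg (by omega)]

theorem sA_pair (j : ℕ) : sA (2 * j + 1) = sA (2 * j + 2) := by
  rcases j with _ | _ | j
  · simp [sA]
  · simp [sA]
  · rw [sA_big _ (by omega), sA_big _ (by omega)]
theorem sC_pair (j : ℕ) : sC (2 * j) = sC (2 * j + 1) := by
  rcases j with _ | _ | _ | j
  · simp [sC]
  · simp [sC]
  · simp [sC]
  · rw [sC_big _ (by omega), sC_big _ (by omega)]
theorem sB_pair (j : ℕ) : sB (2 * j) = - sB (2 * j + 1) := by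
  rcases j with _ | _ | _ | j
  · simp [sB]
  · simp [sB]
  · simp [sB]
  · rw [sB_big _ (by omega), sB_big _ (by omega)]; simp
theorem sA_zero : sA 0 = 0 := by simp [sA]

theorem op_self (l : Fin 3) (v : Vec) (k : ℕ) : op l v l k = dA (v l) k + v l 0 * sA k := by
  simp [op]
theorem op_succ (l : Fin 3) (v : Vec) (k : ℕ) :
    op l v (l + 1) k = dC (v (l + 1)) k + v l 0 * sC k := by
  fin_cases l <;> simp [op]
theorem op_succ2 (l : Fin 3) (v : Vec) (k : ℕ) :
    op l v (l + 2) k = dB (v (l + 2)) k + v l 0 * sB k := by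
  fin_cases l <;> simp [op]

theorem leg_cases (l L : Fin 3) : L = l ∨ L = l + 1 ∨ L = l + 2 := by
  fin_cases l <;> fin_cases L <;> simp

theorem op_zero_self (l : Fin 3) (v : Vec) : op l v l 0 = 0 := by
  rw [op_self, dA_zero, sA_zero]; ring

theorem op_op (l : Fin 3) (v : Vec) : op l (op l v) = 0 := by
  funext L k
  rcases leg_cases l L with rfl | rfl | rfl
  · rw [op_self, op_zero_self]
    rcases Nat.eq_zero_or_pos k with rfl | hk
    · simp [dA_zero]
    · obtain ⟨j, rfl | rfl⟩ : ∃ j, k = 2 * j + 1 ∨ k = 2 * j + 2 := ⟨(k - 1) / 2, by omega⟩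
      · rw [dA_odd, op_self, op_self, dA_odd, dA_even, sA_pair]; simp
      · rw [dA_even, op_self, op_self, dA_odd, dA_even, sA_pair]; simp
  · rw [op_succ, op_zero_self]
    obtain ⟨j, rfl | rfl⟩ : ∃ j, k = 2 * j ∨ k = 2 * j + 1 := ⟨k / 2, by omega⟩
    · rw [dC_even, op_succ, op_succ, dC_even, dC_odd, sC_pair]; simp
    · rw [dC_odd, op_succ, op_succ, dC_even, dC_odd, sC_pair]; simp
  · rw [op_succ2, op_zero_self]
    obtain ⟨j, rfl | rfl⟩ : ∃ j, k = 2 * j ∨ k = 2 * j + 1 := ⟨k / 2, by omega⟩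
    · rw [dB_even, op_succ2, op_succ2, dB_even, dB_odd, sB_pair]; simp; ring
    · rw [dB_odd, op_succ2, op_succ2, dB_even, dB_odd, sB_pair]; simp; ring

/-- `E` in coordinates -/
theorem E_leg (v : Vec) (L : Fin 3) (k : ℕ) :
    E v L k = dA (v L) k + dB (v L) k + dC (v L) k + v L 0 * sA k
      + v (L + 2) 0 * sC k + v (L + 1) 0 * sB k := by
  fin_cases L <;> simp [E, op] <;> ring

theorem Fh_eq (v : Vec) (L : Fin 3) : Fh v = v L 0 + v (L + 1) 0 + v (L + 2) 0 := by
  fin_cases L <;> simp [Fh] <;> ring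

theorem E_zero (v : Vec) (L : Fin 3) : E v L 0 = Fh v := by
  have h := dB_even (v L) 0
  have h' := dC_even (v L) 0
  simp only [mul_zero] at h h'
  rw [E_leg, dA_zero, h, h', Fh_eq v L]
  simp [sA, sB, sC]; ring

theorem E_odd (v : Vec) (L : Fin 3) (j : ℕ) :
    E v L (2 * j + 1) = -(v L (2 * j + 1) + v L (2 * j + 2)) / 2 + v L 0 * sA (2 * j + 1)
      + v (L + 2) 0 * sC (2 * j + 1) + v (L + 1) 0 * sB (2 * j + 1) := by
  rw [E_leg, dA_odd, dB_odd, dC_odd]; ring

theorem E_even (v : Vec) (L : Fin 3) (j : ℕ) :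
    E v L (2 * j + 2) = (v L (2 * j + 1) + v L (2 * j + 2)) / 2 + v L 0 * sA (2 * j + 2)
      + v (L + 2) 0 * sC (2 * j + 2) + v (L + 1) 0 * sB (2 * j + 2) := by
  have h := dB_even (v L) (j + 1)
  have h' := dC_even (v L) (j + 1)
  rw [show 2 * (j + 1) = 2 * j + 2 by ring] at h h'
  rw [E_leg, dA_even, h, h']; ring

theorem Fh_E (v : Vec) : Fh (E v) = 3 * Fh v := by
  unfold Fh; rw [E_zero, E_zero, E_zero]; unfold Fh; ring

theorem sum_pair (v : Vec) (L : Fin 3) (j : ℕ) :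
    E v L (2 * j + 1) + E v L (2 * j + 2) =
      v L 0 * (sA (2 * j + 1) + sA (2 * j + 2)) + v (L + 2) 0 * (sC (2 * j + 1) + sC (2 * j + 2))
      + v (L + 1) 0 * (sB (2 * j + 1) + sB (2 * j + 2)) := by
  rw [E_odd, E_even]; ring

theorem E_E (v : Vec) : E (E v) = fun L k => Fh v * T L k := by
  funext L k
  rcases Nat.eq_zero_or_pos k with rfl | hk
  · rw [E_zero, Fh_E]; simp [T]; ring
  · obtain ⟨j, hj⟩ : ∃ j, k = 2 * j + 1 ∨ k = 2 * j + 2 := ⟨(k - 1) / 2, by omega⟩
    have hs := sum_pair v L j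
    have key : E (E v) L k = (if k = 2 * j + 1 then -1 else 1) *
        (E v L (2 * j + 1) + E v L (2 * j + 2)) / 2
        + Fh v * (sA k + sC k + sB k) := by
      rcases hj with rfl | rfl
      · rw [E_odd, E_zero, E_zero, E_zero]; simp; ring
      · rw [E_even, E_zero, E_zero, E_zero]; simp; ring
    rw [key, hs]
    have hF := Fh_eq v L
    by_cases h0 : j = 0
    · subst h0
      rcases hj with rfl | rfl <;> simp [sA, sB, sC, T] <;> ring
    · by_cases h1 : j = 1
      · subst h1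
        rcases hj with rfl | rfl <;> simp [sA, sB, sC, T] <;> rw [hF] <;> ring
      · have a1 : sA (2 * j + 1) = 0 := sA_big _ (by omega)
        have a2 : sA (2 * j + 2) = 0 := sA_big _ (by omega)
        have b1 : sB (2 * j + 1) = 0 := sB_big _ (by omega)
        have b2 : sB (2 * j + 2) = 0 := sB_big _ (by omega)
        have c1 : sC (2 * j + 1) = 0 := sC_big _ (by omega)
        have c2 : sC (2 * j + 2) = 0 := sC_big _ (by omega)
        have t : T L k = 0 := T_big L _ (by omega)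
        rcases hj with rfl | rfl <;> rw [t] <;> simp [a1, a2, b1, b2, c1, c2]

theorem E_T : E T = fun L k => 3 * T L k := by
  funext L k
  rcases Nat.eq_zero_or_pos k with rfl | hk
  · rw [E_zero]; simp [T, Fh]; norm_num
  · obtain ⟨j, hj⟩ : ∃ j, k = 2 * j + 1 ∨ k = 2 * j + 2 := ⟨(k - 1) / 2, by omega⟩
    by_cases h0 : j = 0
    · subst h0
      rcases hj with rfl | rfl
      · rw [E_odd]; simp [sA, sB, sC, T]
      · rw [E_even]; simp [sA, sB, sC, T]
    · by_cases h1 : j = 1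
      · subst h1
        rcases hj with rfl | rfl
        · rw [E_odd]; simp [sA, sB, sC, T]; norm_num
        · rw [E_even]; simp [sA, sB, sC, T]; norm_num
      · have a1 : sA k = 0 := sA_big _ (by omega)
        have b1 : sB k = 0 := sB_big _ (by omega)
        have c1 : sC k = 0 := sC_big _ (by omega)
        have t : T L k = 0 := T_big L _ (by omega)
        have t1 : T L (2 * j + 1) = 0 := T_big L _ (by omega)
        have t2 : T L (2 * j + 2) = 0 := T_big L _ (by omega)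
        rw [t]
        rcases hj with rfl | rfl
        · rw [E_odd, t1, t2, a1, b1, c1]; simp
        · rw [E_even, t1, t2, a1, b1, c1]; simp

end

end H82Col
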