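import Mathlib

/-!
# Consistent weights of stationary 2-dependent 3-colourings (MP_341645_pr)
-/

set_option autoImplicit false

namespace H82Col

/-- Consistent finite dimensional distributions of a stationary 2-dependent 3-colouring. -/
structure IsWeight (φ : List (Fin 3) → ℝ) : Prop where
  nonneg : ∀ w, 0 ≤ φ w
  nil : φ [] = 1
  right : ∀ w, ∑ x, φ (w ++ [x]) = φ w
  left : ∀ w, ∑ x, φ (x :: w) = φ w
  proper : ∀ u x v, φ (u ++ x :: x :: v) = 0
  dep : ∀ u v, ∑ s, ∑ t, φ (u ++ s :: t :: v) = φ u * φ v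

end H82Col
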