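import Pool.Agent.H82.Col.Alg

/-!
# The weight `phi` of the second colouring, everything but nonnegativity
-/

set_option autoImplicit false

namespace H82Col

open Finset

noncomputable section

theorem dA_lin (c : ℝ) (f g : ℕ → ℝ) (k : ℕ) :
    dA (fun i => f i + c * g i) k = dA f k + c * dA g k := by
  unfold dA; split_ifs <;> ring
theorem dB_lin (c : ℝ) (f g : ℕ → ℝ) (k : ℕ) :
    dB (fun i => f i + c * g i) k = dB f k + c * dB g k := by
  unfold dB; split_ifs <;> ring
theorem dC_lin (c : ℝ) (f g : ℕ → ℝ) (k : ℕ) :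
    dC (fun i => f i + c * g i) k = dC f k + c * dC g k := by
  unfold dC; split_ifs <;> ring

theorem op_lin (l : Fin 3) (c : ℝ) (u v : Vec) : op l (u + c • v) = op l u + c • op l v := by
  have e : (u + c • v) = fun L k => u L k + c * v L k := by funext L k; simp
  funext L k
  rw [e]
  simp only [op, Pi.add_apply, Pi.smul_apply, smul_eq_mul]
  rw [dA_lin, dB_lin, dC_lin]
  split_ifs <;> ring

theorem op_add (l : Fin 3) (u v : Vec) : op l (u + v) = op l u + op l v := by
  have := op_lin l 1 u v
  simpa using this
theorem op_zero' (l : Fin 3) : op l 0 = 0 := by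
  have := op_add l 0 0
  simpa using this
theorem op_smul (l : Fin 3) (c : ℝ) (v : Vec) : op l (c • v) = c • op l v := by
  have := op_lin l c 0 v
  simpa [op_zero'] using this

/-- action of a word -/
def act (w : List (Fin 3)) (v : Vec) : Vec := w.foldr op v

theorem act_nil (v : Vec) : act [] v = v := rfl
theorem act_cons (x : Fin 3) (w : List (Fin 3)) (v : Vec) : act (x :: w) v = op x (act w v) := rfl
theorem act_append (u w : List (Fin 3)) (v : Vec) : act (u ++ w) v = act u (act w v) := by
  simp [act, List.foldr_append]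
theorem act_add (w : List (Fin 3)) (u v : Vec) : act w (u + v) = act w u + act w v := by
  induction w with
  | nil => rfl
  | cons x w ih => rw [act_cons, act_cons, act_cons, ih, op_add]
theorem act_smul (w : List (Fin 3)) (c : ℝ) (v : Vec) : act w (c • v) = c • act w v := by
  induction w with
  | nil => rfl
  | cons x w ih => rw [act_cons, act_cons, ih, op_smul]
theorem act_zero (w : List (Fin 3)) : act w 0 = 0 := by
  induction w with
  | nil => rfl
  | cons x w ih => rw [act_cons, ih, op_zero']

theorem E_eq (v : Vec) : op 0 v + op 1 v + op 2 v = E v := rfl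

theorem Fh_add (u v : Vec) : Fh (u + v) = Fh u + Fh v := by simp [Fh]; ring
theorem Fh_smul (c : ℝ) (v : Vec) : Fh (c • v) = c * Fh v := by simp [Fh]; ring
theorem Fh_zero : Fh 0 = 0 := by simp [Fh]

theorem E_T' : E T = (3 : ℝ) • T := by rw [E_T]; rfl
theorem E_E' (v : Vec) : E (E v) = Fh v • T := by rw [E_E]; rfl

/-- unnormalised weights -/
def Fw (w : List (Fin 3)) : ℝ := Fh (act w T)

/-- the weight -/
def phi (w : List (Fin 3)) : ℝ := Fw w / (9 * 3 ^ w.length)

theorem Fw_nil : Fw [] = 9 := by simp [Fw, act_nil, Fh, T]; norm_num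

theorem Fw_right (w : List (Fin 3)) : ∑ x, Fw (w ++ [x]) = 3 * Fw w := by
  have : ∀ x, Fw (w ++ [x]) = Fh (act w (op x T)) := fun x => by
    simp [Fw, act_append, act_cons, act_nil]
  simp only [this]
  simp only [Fin.sum_univ_three]
  rw [← Fh_add, ← Fh_add, ← act_add, ← act_add, E_eq, E_T', act_smul, Fh_smul]
  rfl

theorem Fw_left (w : List (Fin 3)) : ∑ x, Fw (x :: w) = 3 * Fw w := by
  simp only [Fin.sum_univ_three, Fw, act_cons]
  rw [← Fh_add, ← Fh_add, E_eq, Fh_E]

theorem Fw_proper (u : List (Fin 3)) (x : Fin 3) (v : List (Fin 3)) :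
    Fw (u ++ x :: x :: v) = 0 := by
  rw [Fw, act_append, act_cons, act_cons, op_op, act_zero, Fh_zero]

theorem Fw_dep (u v : List (Fin 3)) : ∑ s, ∑ t, Fw (u ++ s :: t :: v) = Fw u * Fw v := by
  have h : ∀ s t, Fw (u ++ s :: t :: v) = Fh (act u (op s (op t (act v T)))) := fun s t => by
    simp [Fw, act_append, act_cons]
  simp only [h]
  have h2 : ∀ s, ∑ t, Fh (act u (op s (op t (act v T)))) = Fh (act u (op s (E (act v T)))) := by
    intro s
    simp only [Fin.sum_univ_three]
    rw [← Fh_add, ← Fh_add, ← act_add, ← act_add, ← op_add, ← op_add, E_eq]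
  simp only [h2]
  simp only [Fin.sum_univ_three]
  rw [← Fh_add, ← Fh_add, ← act_add, ← act_add, E_eq, E_E', act_smul, Fh_smul]
  simp only [Fw]; ring

theorem isWeight_phi (hpos : ∀ w, 0 ≤ Fw w) : IsWeight phi where
  nonneg w := div_nonneg (hpos w) (by positivity)
  nil := by simp [phi, Fw_nil]
  right w := by
    simp only [phi, List.length_append, List.length_singleton]
    rw [← Finset.sum_div, Fw_right, pow_succ]
    have : (3 : ℝ) ^ w.length ≠ 0 := by positivity
    field_simp
  left w := by
    simp only [phi, List.length_cons]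
    rw [← Finset.sum_div, Fw_left, pow_succ]
    have : (3 : ℝ) ^ w.length ≠ 0 := by positivity
    field_simp
  proper u x v := by simp [phi, Fw_proper]
  dep u v := by
    simp only [phi, List.length_append, List.length_cons]
    simp only [← Finset.sum_div]
    rw [Fw_dep]
    have h1 : (3 : ℝ) ^ u.length ≠ 0 := by positivity
    have h2 : (3 : ℝ) ^ v.length ≠ 0 := by positivity
    rw [show u.length + (v.length + 1 + 1) = u.length + v.length + 2 by ring, pow_add, pow_add]
    field_simp
    ring

theorem phi_010 : phi [0, 1, 0] = 131 / 1944 := by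
  simp [phi, Fw, act, Fh, op, dA, dB, dC, sA, sB, sC, T]
  norm_num

end

end H82Col
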